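import Pool.Agent.Helper37.SZ.StarSet

/-!
Project SZ, module SZ-6: insensitive dense sets contain subspaces.
-/

namespace Pool.Agent.Helper52.SZ

open Combinatorics

open Classical in
/-- the subspace which is constant on T -/
noncomputable def ins_fill {α ι η : Type} (i : α) (T : Set ι)
    (V' : Subspace η α {j // j ∉ T}) : Subspace η (Option α) ι where
  idxFun j := if h : j ∉ T then (V'.idxFun ⟨j, h⟩).map some id else Sum.inl (some i)
  proper e := by
    obtain ⟨⟨j, hj⟩, h⟩ := V'.proper e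
    exact ⟨j, by rw [dif_pos hj, h]; rfl⟩

theorem ins_fill_rep {α ι η : Type} (i : α) (T : Set ι)
    (V' : Subspace η α {j // j ∉ T}) (x : η → Option α) :
    rep i (ins_fill i T V' x) = fillT i T (V' (rep i x)) := by
  classical
  funext j
  simp only [rep, Subspace.coe_apply, ins_fill, fillT]
  by_cases h : j ∉ T
  · rw [dif_pos h, dif_pos h]
    cases V'.idxFun ⟨j, h⟩ <;> rfl
  · rw [dif_neg h, dif_neg h]
    rfl

theorem ins_sub {α : Type} [Finite α] [Nonempty α] (h : MDHJ α) (i : α) (d : ℕ) (δ : ℝ)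
    (hδ : 0 < δ) :
    ∃ n0 : ℕ, ∀ (ι : Type) [Finite ι], n0 ≤ Nat.card ι → ∀ E : Set (ι → Option α),
      Ins i E → δ ≤ dn E → ∃ V : Subspace (Fin d) (Option α) ι, ∀ x, V x ∈ E := by
  obtain ⟨n, hn⟩ := h d (δ / 2) (by linarith)
  obtain ⟨n0, h0⟩ := exists_starset (α := α) n δ hδ
  refine ⟨n0, ?_⟩
  intro ι _ hι E hE hd
  obtain ⟨T, hT, hw⟩ := h0 ι hι i E hE hd
  obtain ⟨V', hV'⟩ := hn {j // j ∉ T} hT _ hw
  refine ⟨ins_fill i T V', ?_⟩
  intro x
  rw [hE, ins_fill_rep]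
  exact hV' (rep i x)

end Pool.Agent.Helper52.SZ
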